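import Pool.Agent.Work.MP_2bb1d3_co_h93.Bounds

/-!
# The jump of the thrackle genus is at most linear

Adding an edge `uv` to a finite graph `G` with `m` edges raises the thrackle genus by at most
`min (deg u) (deg v) (m - deg u - deg v) + 1`.  Hence `J(n, m) ≤ min (n - 2) (m / 3) + 1`, and the
quadratic upper bound for `J` is not sharp (part (b) of Q1, negated form, even for all large `n`).
The thrackles are the combinatorial ones of `Thrackle`; every finite graph has one, so that `tg` is
a true minimum (first clause).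
-/

set_option autoImplicit false

namespace Pool.Agent.Results.MP_2bb1d3_co.LinearJump

open Pool.Agent.Work.MP_2bb1d3_co_h93

theorem result :
    (∀ (V : Type) [Finite V] (G : SimpleGraph V), CanThrackle G (tg G)) ∧
    (∀ (V : Type) [Finite V] (G : SimpleGraph V) (u v : V), u ≠ v → ¬ G.Adj u v →
      tg (G ⊔ SimpleGraph.edge u v) ≤
        tg G + min (min (G.neighborSet u).ncard (G.neighborSet v).ncard)
          (G.edgeSet.ncard - ((G.neighborSet u).ncard + (G.neighborSet v).ncard)) + 1) ∧
    (∀ n m : ℕ, J n m ≤ min (n - 2) (m / 3) + 1) ∧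
    (∀ c : ℝ, 0 < c → ∃ n₀ : ℕ, ∀ n ≥ n₀, ∀ m : ℕ, (J n m : ℝ) < c * (n : ℝ) ^ 2) :=
  ⟨fun _ _ G => canThrackle_tg G, fun _ _ G _ _ huv hna => tg_add_edge G huv hna, J_le, J_small⟩

end Pool.Agent.Results.MP_2bb1d3_co.LinearJump
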